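import Pool.Agent.Q251.KN.IQA2

/-! Project KN (helper99), job KN-IQA, part 3: bounds, limits and the result. -/

set_option autoImplicit false

namespace Pool.Agent.Q251.KN

open Finset Filter Topology MeasureTheory
open Pool.Agent.Q99.KN

/-! ### the box -/

section box

variable {ρ : ℝ} {N : ℕ}

theorem inv_N (hρ : 0 < ρ) (hN : 16 / ρ ≤ N) : 0 < (N : ℝ) ∧ 1 / (N : ℝ) ≤ ρ / 16 := by
  have h1 : 0 < 16 / ρ := by positivity
  have h2 : 0 < (N : ℝ) := lt_of_lt_of_le h1 hN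
  refine ⟨h2, ?_⟩
  rw [div_le_div_iff₀ h2 (by norm_num)]
  rw [div_le_iff₀ hρ] at hN
  linarith

theorem al_bd (hρ : 0 < ρ) (hρ1 : ρ ≤ 1 / 16) (hN : 16 / ρ ≤ N) :
    1 / 4 - ρ / 4 - ρ / 32 ≤ al ρ N ∧ al ρ N ≤ 1 / 4 - ρ / 4 + ρ / 32 := by
  obtain ⟨h1, h2⟩ := inv_N hρ hN
  have h3 := Nat.le_ceil ((N : ℝ) * (1 / 4 - ρ / 4))
  have h4 := Nat.ceil_lt_add_one (show 0 ≤ (N : ℝ) * (1 / 4 - ρ / 4) by
    apply mul_nonneg h1.le; linarith)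
  unfold al aN
  rw [div_le_iff₀ h1] at h2
  constructor
  · rw [le_div_iff₀ h1]
    nlinarith
  · rw [div_le_iff₀ h1]
    nlinarith

theorem be_bd (hρ : 0 < ρ) (hN : 16 / ρ ≤ N) :
    1 / 4 + ρ / 4 - ρ / 32 ≤ be ρ N ∧ be ρ N ≤ 1 / 4 + ρ / 4 + ρ / 32 := by
  obtain ⟨h1, h2⟩ := inv_N hρ hN
  have h3 := Nat.floor_le (show 0 ≤ (N : ℝ) * (1 / 4 + ρ / 4) by positivity)
  have h4 := Nat.lt_floor_add_one ((N : ℝ) * (1 / 4 + ρ / 4))
  unfold be bN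
  rw [div_le_iff₀ h1] at h2
  constructor
  · rw [le_div_iff₀ h1]
    nlinarith
  · rw [div_le_iff₀ h1]
    nlinarith

theorem th_bd (hρ : 0 < ρ) (hρ1 : ρ ≤ 1 / 16) (hN : 16 / ρ ≤ N) :
    ρ / 8 ≤ th ρ N ∧ th ρ N ≤ ρ / 4 := by
  obtain ⟨h1, h2⟩ := inv_N hρ hN
  have h3 := Nat.le_ceil ((1 - ρ / 4) * (N : ℝ) / 2)
  have h4 := Nat.ceil_lt_add_one (show 0 ≤ (1 - ρ / 4) * (N : ℝ) / 2 by
    apply div_nonneg (mul_nonneg (by linarith) h1.le) (by norm_num))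
  unfold th jN
  rw [div_le_iff₀ h1] at h2
  constructor
  · rw [le_sub_comm, div_le_iff₀ h1]
    nlinarith
  · rw [sub_le_comm, le_div_iff₀ h1]
    nlinarith

end box

variable {k : ℕ}

/-- the box -/
def Bx (ρ : ℝ) (N k : ℕ) : Set (Fin k ⊕ Fin (k + 1) → ℝ) :=
  {u | (∀ j, u (.inl j) ∈ Set.Icc (al ρ N) (be ρ N)) ∧
      ∀ i, u (.inr i) ∈ Set.Icc (-th ρ N) (th ρ N)}

theorem bx_closed (ρ : ℝ) (N k : ℕ) : IsClosed (Bx ρ N k) := by
  unfold Bx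
  simp only [Set.ofPred_and, Set.ofPred_forall]
  exact (isClosed_iInter fun j => isClosed_Icc.preimage (continuous_apply _)).inter
    (isClosed_iInter fun i => isClosed_Icc.preimage (continuous_apply _))

/-- the real parts of the saddle point -/
noncomputable def pp (ξ : Fin k → ℂ) (ζ : Fin (k + 1) → ℂ) : Fin k ⊕ Fin (k + 1) → ℝ
  | .inl j => (ξ j).re
  | .inr i => (ζ i).re

/-- the translated box -/
def Sx (ρ : ℝ) (N : ℕ) (ξ : Fin k → ℂ) (ζ : Fin (k + 1) → ℂ) : Set (Fin k ⊕ Fin (k + 1) → ℝ) :=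
  {v | v + pp ξ ζ ∈ Bx ρ N k}

theorem sx_closed (ρ : ℝ) (N : ℕ) (ξ : Fin k → ℂ) (ζ : Fin (k + 1) → ℂ) :
    IsClosed (Sx ρ N ξ ζ) :=
  (bx_closed ρ N k).preimage (continuous_id.add continuous_const)

theorem sx_mem {ρ : ℝ} (hρ : 0 < ρ) (hρ1 : ρ ≤ 1 / 16) {N : ℕ} (hN : 16 / ρ ≤ N)
    {ξ : Fin k → ℂ} {ζ : Fin (k + 1) → ℂ} (hξ : ∀ j, ‖ξ j - 1 / 4‖ < ρ / 8)
    (hζ : ∀ i, ‖ζ i‖ < ρ / 8) {v : Fin k ⊕ Fin (k + 1) → ℝ} (hv : v ∈ Sx ρ N ξ ζ) :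
    (∀ j, ‖ξ j + v (.inl j) - 1 / 4‖ < ρ) ∧ ∀ i, ‖ζ i + v (.inr i)‖ < ρ := by
  obtain ⟨h1, h2⟩ := hv
  constructor
  · intro j
    have h3 := h1 j
    simp only [Pi.add_apply, pp] at h3
    have h4 := al_bd hρ hρ1 hN
    have h5 := be_bd hρ hN
    have h6 : |(ξ j - 1 / 4).im| < ρ / 8 := (Complex.abs_im_le_norm _).trans_lt (hξ j)
    have h7 := Complex.norm_le_abs_re_add_abs_im (ξ j + v (.inl j) - 1 / 4)
    have h8 : (ξ j + v (.inl j) - 1 / 4).im = (ξ j - 1 / 4).im := by simp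
    have h9 : (ξ j + v (.inl j) - 1 / 4).re = v (.inl j) + (ξ j).re - 1 / 4 := by
      simp
      ring
    rw [h8, h9] at h7
    have h10 : |v (.inl j) + (ξ j).re - 1 / 4| ≤ ρ / 4 + ρ / 32 := by
      rw [abs_le]
      constructor
      · linarith [h3.1]
      · linarith [h3.2]
    linarith
  · intro i
    have h3 := h2 i
    simp only [Pi.add_apply, pp] at h3
    have h4 := th_bd hρ hρ1 hN
    have h6 : |(ζ i).im| < ρ / 8 := (Complex.abs_im_le_norm _).trans_lt (hζ i)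
    have h7 := Complex.norm_le_abs_re_add_abs_im (ζ i + v (.inr i))
    have h8 : (ζ i + v (.inr i)).im = (ζ i).im := by simp
    have h9 : (ζ i + v (.inr i)).re = v (.inr i) + (ζ i).re := by
      simp
      ring
    rw [h8, h9] at h7
    have h10 : |v (.inr i) + (ζ i).re| ≤ ρ / 4 := by
      rw [abs_le]
      constructor
      · linarith [h3.1]
      · linarith [h3.2]
    linarith

theorem div_sqrt_tendsto (c : ℝ) : Tendsto (fun N : ℕ => c / √(N:ℝ)) atTop (𝓝 0) := by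
  have h := (Real.tendsto_sqrt_atTop.comp tendsto_natCast_atTop_atTop)
  exact (tendsto_const_nhds (x := c)).div_atTop h

theorem sx_ev {ρ : ℝ} (hρ : 0 < ρ) (hρ1 : ρ ≤ 1 / 16)
    {ξ : Fin k → ℂ} {ζ : Fin (k + 1) → ℂ} (hξ : ∀ j, ‖ξ j - 1 / 4‖ < ρ / 8)
    (hζ : ∀ i, ‖ζ i‖ < ρ / 8) (u : Fin k ⊕ Fin (k + 1) → ℝ) :
    ∀ᶠ N : ℕ in atTop, (fun i => u i / √(N:ℝ)) ∈ Sx ρ N ξ ζ := by
  have h1 : ∀ j, ∀ᶠ N : ℕ in atTop, |u (.inl j) / √(N:ℝ) + ((ξ j).re - 1 / 4)| < ρ / 8 := by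
    intro j
    have h2 : Tendsto (fun N : ℕ => |u (.inl j) / √(N:ℝ) + ((ξ j).re - 1 / 4)|) atTop
        (𝓝 |0 + ((ξ j).re - 1 / 4)|) := ((div_sqrt_tendsto _).add_const _).abs
    refine h2.eventually_lt_const ?_
    rw [zero_add]
    have h3 := Complex.abs_re_le_norm (ξ j - 1 / 4)
    have h4 : (ξ j - 1 / 4).re = (ξ j).re - 1 / 4 := by simp
    rw [h4] at h3
    exact h3.trans_lt (hξ j)
  have h1' : ∀ i, ∀ᶠ N : ℕ in atTop, |u (.inr i) / √(N:ℝ) + (ζ i).re| < ρ / 8 := by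
    intro i
    have h2 : Tendsto (fun N : ℕ => |u (.inr i) / √(N:ℝ) + (ζ i).re|) atTop
        (𝓝 |0 + (ζ i).re|) := ((div_sqrt_tendsto _).add_const _).abs
    refine h2.eventually_lt_const ?_
    rw [zero_add]
    exact (Complex.abs_re_le_norm _).trans_lt (hζ i)
  have h5 : ∀ᶠ N : ℕ in atTop, 16 / ρ ≤ (N : ℝ) :=
    tendsto_natCast_atTop_atTop.eventually_ge_atTop _
  filter_upwards [eventually_all.2 h1, eventually_all.2 h1', h5] with N hN1 hN2 hN3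
  obtain ⟨a1, a2⟩ := al_bd hρ hρ1 hN3
  obtain ⟨b1, b2⟩ := be_bd hρ hN3
  obtain ⟨c1, c2⟩ := th_bd hρ hρ1 hN3
  constructor
  · intro j
    simp only [Pi.add_apply, pp]
    have h6 := abs_lt.1 (hN1 j)
    constructor <;> linarith [h6.1, h6.2]
  · intro i
    simp only [Pi.add_apply, pp]
    have h6 := abs_lt.1 (hN2 i)
    constructor <;> linarith [h6.1, h6.2]

/-! ### non-vanishing of sines -/

theorem sin_ne_of_im {z : ℂ} (h : z.im ≠ 0) : Complex.sin z ≠ 0 := by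
  intro h0
  obtain ⟨n, hn⟩ := Complex.sin_eq_zero_iff.1 h0
  apply h
  rw [hn]
  simp [Complex.mul_im]

theorem sin_ne_of_re {x : ℂ} (h : ‖x - 1 / 4‖ ≤ 1 / 16) : Complex.sin (Real.pi * x) ≠ 0 := by
  intro h0
  obtain ⟨n, hn⟩ := Complex.sin_eq_zero_iff.1 h0
  have hπ : (Real.pi : ℂ) ≠ 0 := by exact_mod_cast Real.pi_ne_zero
  have h1 : x = n := by
    have : (Real.pi : ℂ) * x = Real.pi * n := by rw [hn]; ring
    exact mul_left_cancel₀ hπ this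
  have h2 := (Complex.abs_re_le_norm (x - 1 / 4)).trans h
  rw [h1] at h2
  have h3 : ((n : ℂ) - 1 / 4).re = (n : ℝ) - 1 / 4 := by simp
  rw [h3, abs_le] at h2
  have h4 : (0 : ℝ) < n := by linarith [h2.1]
  have h5 : (n : ℝ) < 1 := by linarith [h2.2]
  have h6 : 0 < n := by exact_mod_cast h4
  have h7 : n < 1 := by exact_mod_cast h5
  omega

/-! ### the factors -/

theorem eg_norm (N : ℕ) (Z : ℂ) : ‖Eg N Z‖ = Real.exp (-(Real.pi * N * Z.im)) := by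
  unfold Eg
  rw [Complex.norm_exp]
  congr 1
  simp [Complex.mul_re, Complex.mul_im]
  ring

theorem eg_tendsto {y : ℝ} (hy : 0 < y) :
    Tendsto (fun N : ℕ => Real.exp (-(Real.pi * N * y))) atTop (𝓝 0) := by
  have h1 : Tendsto (fun N : ℕ => Real.pi * y * (N:ℝ)) atTop atTop :=
    tendsto_natCast_atTop_atTop.const_mul_atTop (mul_pos Real.pi_pos hy)
  have h2 := Real.tendsto_exp_neg_atTop_nhds_zero.comp h1
  refine h2.congr fun N => ?_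
  simp only [Function.comp]
  congr 1
  ring

theorem fz_bound : ∃ B : ℝ, ∀ (N : ℕ) (Z : ℂ), ‖Z‖ ≤ 1 → ‖Eg N Z‖ ≤ 1 / 2 → ‖fz N Z‖ ≤ B := by
  have hc : ContinuousOn (fun Z : ℂ => (Real.pi / Complex.I * Complex.sin (Real.pi * Z) : ℂ))
      (Metric.closedBall 0 1) := by fun_prop
  obtain ⟨B, hB⟩ := (isCompact_closedBall (0:ℂ) 1).exists_bound_of_continuousOn hc
  refine ⟨B * 4, fun N Z hZ hE => ?_⟩
  have h1 := hB Z (by simpa using hZ)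
  have h2 : 1 / 2 ≤ ‖1 - Eg N Z‖ := by
    have := norm_sub_norm_le (1:ℂ) (Eg N Z)
    rw [norm_one] at this
    linarith
  have h3 : 1 / 4 ≤ ‖1 - Eg N Z‖ ^ 2 := by nlinarith
  have hB0 : 0 ≤ B := (norm_nonneg _).trans h1
  unfold fz
  rw [norm_div, norm_pow, div_le_iff₀ (by linarith)]
  nlinarith

theorem fx_bound {ρ κ K C0 : ℝ} (hC : Cst ρ κ K C0) : ∃ B : ℝ, ∀ (N : ℕ) (X Z Z' : ℂ), 1 ≤ N →
    ‖X - 1 / 4‖ < ρ → ‖Z‖ < ρ → ‖Z'‖ < ρ → ‖fx N X Z Z'‖ ≤ B := by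
  have hc : ContinuousOn (fun X : ℂ => (1 / 4 / Complex.sin (Real.pi * X) ^ 2 : ℂ))
      (Metric.closedBall (1/4) (1/16)) := by
    refine ContinuousOn.div (by fun_prop) (by fun_prop) fun x hx => ?_
    refine pow_ne_zero 2 (sin_ne_of_re ?_)
    rw [← dist_eq_norm]
    exact hx
  obtain ⟨B, hB⟩ := (isCompact_closedBall (1/4:ℂ) (1/16)).exists_bound_of_continuousOn hc
  refine ⟨B * (1 + C0) * (1 + C0), fun N X Z Z' hN hX hZ hZ' => ?_⟩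
  have h1 := hB X (by rw [Metric.mem_closedBall, dist_eq_norm]; linarith [hC.ρ1])
  have hR : ∀ Y : ℂ, ‖Y‖ < ρ → ‖Rr N X Y‖ ≤ 1 + C0 := by
    intro Y hY
    have h2 := hC.asy N hN X Y hX hY
    have h3 : C0 / N ≤ C0 := by
      have hN1 : (1:ℝ) ≤ N := by exact_mod_cast hN
      exact div_le_self (by linarith [hC.C1]) hN1
    have h4 : ‖Rr N X Y‖ ≤ ‖Rr N X Y - 1‖ + ‖(1:ℂ)‖ := by
      have := norm_add_le (Rr N X Y - 1) 1
      simpa using this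
    rw [norm_one] at h4
    have h5 : ‖Rr N X Y - 1‖ ≤ C0 / N := h2
    linarith
  have hB0 : 0 ≤ B := (norm_nonneg _).trans h1
  have hC0 : 0 ≤ 1 + C0 := by linarith [hC.C1]
  unfold fx
  rw [norm_mul, norm_mul]
  exact mul_le_mul (mul_le_mul h1 (hR Z hZ) (norm_nonneg _) hB0) (hR Z' hZ') (norm_nonneg _)
    (by positivity)

/-- the function of Laplace's method -/
noncomputable def Gf (N : ℕ) (w : Fin (k + 1) → ℤ) (ξ : Fin k → ℂ) (ζ : Fin (k + 1) → ℂ)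
    (v : Fin k ⊕ Fin (k + 1) → ℝ) : ℂ :=
  Complex.exp (N * (Ph w (fun j => ξ j + v (.inl j)) (fun i => ζ i + v (.inr i)) - Ph w ξ ζ)) *
    Hp N (fun j => ξ j + v (.inl j)) (fun i => ζ i + v (.inr i))

theorem gf_bound {ρ κ K C0 : ℝ} (hC : Cst ρ κ K C0)
    (w : Fin (k + 1) → ℤ) (ξ : Fin k → ℂ) (ζ : Fin (k + 1) → ℂ)
    (hξ : ∀ j, ‖ξ j - 1 / 4‖ < ρ / 8) (hζ : ∀ i, ‖ζ i‖ < ρ / 8 ∧ 0 < (ζ i).im)
    (hmx : ∀ (a : Fin k → ℝ) (b : Fin (k + 1) → ℝ),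
      (∀ j, ‖ξ j + a j - 1 / 4‖ < ρ) → (∀ i, ‖ζ i + b i‖ < ρ) →
      (Ph w (fun j => ξ j + a j) (fun i => ζ i + b i)).re ≤
        (Ph w ξ ζ).re - κ * (∑ j, a j ^ 2 + ∑ i, b i ^ 2)) :
    ∃ C : ℝ, ∀ᶠ N : ℕ in atTop, ∀ v ∈ Sx ρ N ξ ζ,
      ‖Gf N w ξ ζ v‖ ≤ C * Real.exp (-(κ * N * ∑ i, v i ^ 2)) := by
  obtain ⟨B1, hB1⟩ := fz_bound
  obtain ⟨B2, hB2⟩ := fx_bound hC
  refine ⟨B1 ^ (k + 1) * B2 ^ k, ?_⟩
  have h1 : ∀ i, ∀ᶠ N : ℕ in atTop, Real.exp (-(Real.pi * N * (ζ i).im)) ≤ 1 / 2 := fun i =>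
    (eg_tendsto (hζ i).2).eventually_le_const (by norm_num)
  have h5 : ∀ᶠ N : ℕ in atTop, 16 / ρ ≤ (N : ℝ) :=
    tendsto_natCast_atTop_atTop.eventually_ge_atTop _
  filter_upwards [eventually_all.2 h1, h5, eventually_ge_atTop 1] with N hN1 hN2 hN3 v hv
  obtain ⟨hx, hz⟩ := sx_mem hC.ρ0 hC.ρ1 hN2 hξ (fun i => (hζ i).1) hv
  unfold Gf Hp
  rw [norm_mul, Complex.norm_exp, mul_comm, norm_mul]
  have e1 : ‖∏ i, fz N (ζ i + v (.inr i))‖ ≤ B1 ^ (k + 1) := by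
    rw [norm_prod]
    calc ∏ i, ‖fz N (ζ i + v (.inr i))‖ ≤ ∏ _i : Fin (k + 1), B1 := by
          refine Finset.prod_le_prod (fun i _ => norm_nonneg _) fun i _ => ?_
          refine hB1 N _ (by linarith [hz i, hC.ρ1]) ?_
          rw [eg_norm]
          simpa using hN1 i
      _ = B1 ^ (k + 1) := by simp
  have e2 : ‖∏ j : Fin k, fx N (ξ j + v (.inl j)) (ζ j.castSucc + v (.inr j.castSucc))
      (ζ j.succ + v (.inr j.succ))‖ ≤ B2 ^ k := by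
    rw [norm_prod]
    have e0 : ∏ _i : Fin k, B2 = B2 ^ k := by simp
    rw [← e0]
    exact Finset.prod_le_prod (fun i _ => norm_nonneg _) fun j _ => hB2 N _ _ _ hN3 (hx j)
            (hz _) (hz _)
  have e3 := hmx (fun j => v (.inl j)) (fun i => v (.inr i)) hx hz
  have e4 : (↑N * (Ph w (fun j => ξ j + v (.inl j)) (fun i => ζ i + v (.inr i)) - Ph w ξ ζ)).re ≤
      -(κ * N * ∑ i, v i ^ 2) := by
    rw [← Complex.ofReal_natCast, Complex.re_ofReal_mul, Complex.sub_re, Fintype.sum_sum_type]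
    have hN0 : (0:ℝ) ≤ N := Nat.cast_nonneg N
    nlinarith
  have hB10 : 0 ≤ B1 ^ (k + 1) := (norm_nonneg _).trans e1
  have hB20 : 0 ≤ B2 ^ k := (norm_nonneg _).trans e2
  exact mul_le_mul (mul_le_mul e1 e2 (norm_nonneg _) hB10) (Real.exp_le_exp.2 e4)
    (Real.exp_pos _).le (mul_nonneg hB10 hB20)

/-! ### the pointwise limit -/

theorem rr_tendsto {ρ κ K C0 : ℝ} (hC : Cst ρ κ K C0) (X Z : ℕ → ℂ)
    (hX : ∀ᶠ N in atTop, ‖X N - 1 / 4‖ < ρ) (hZ : ∀ᶠ N in atTop, ‖Z N‖ < ρ) :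
    Tendsto (fun N : ℕ => Rr N (X N) (Z N)) atTop (𝓝 1) := by
  rw [tendsto_iff_norm_sub_tendsto_zero]
  have h1 : Tendsto (fun N : ℕ => C0 / (N : ℝ)) atTop (𝓝 0) := tendsto_const_div_atTop_nhds_zero_nat C0
  refine squeeze_zero' (Filter.Eventually.of_forall fun N => norm_nonneg _) ?_ h1
  filter_upwards [hX, hZ, eventually_ge_atTop 1] with N h2 h3 h4
  exact hC.asy N h4 _ _ h2 h3

/-- the constant -/
noncomputable def c00 (ξ : Fin k → ℂ) (ζ : Fin (k + 1) → ℂ) : ℂ :=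
  (∏ i, (Real.pi / Complex.I * Complex.sin (Real.pi * ζ i) : ℂ)) *
    ∏ j, (1 / 4 / Complex.sin (Real.pi * ξ j) ^ 2 : ℂ)

theorem gf_tendsto (hLC : S_LC) (hGAM : S_GAM) (hHH : S_HH)
    {ρ κ K C0 : ℝ} (hC : Cst ρ κ K C0)
    (w : Fin (k + 1) → ℤ) (ξ : Fin k → ℂ) (ζ : Fin (k + 1) → ℂ) (hcr : Crit w ξ ζ)
    (hξ : ∀ j, ‖ξ j - 1 / 4‖ < ρ / 8) (hζ : ∀ i, ‖ζ i‖ < ρ / 8 ∧ 0 < (ζ i).im)
    (u : Fin k ⊕ Fin (k + 1) → ℝ) :
    Tendsto (fun N : ℕ => Gf N w ξ ζ fun i => u i / √(N:ℝ)) atTop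
      (𝓝 (Complex.exp (P2 w ξ ζ (fun j => u (.inl j)) (fun i => u (.inr i)) / 2) * c00 ξ ζ)) := by
  have hρ := hC.ρ1
  have hρ0 := hC.ρ0
  unfold Gf Hp c00
  have hx0 : ∀ j, Tendsto (fun N : ℕ => ξ j + ((u (.inl j) / √(N:ℝ) : ℝ) : ℂ)) atTop
      (𝓝 (ξ j)) := by
    intro j
    have h1 := (Complex.continuous_ofReal.tendsto 0).comp (div_sqrt_tendsto (u (.inl j)))
    have h2 := h1.const_add (ξ j)
    simpa [Function.comp_def] using h2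
  have hz0 : ∀ i, Tendsto (fun N : ℕ => ζ i + ((u (.inr i) / √(N:ℝ) : ℝ) : ℂ)) atTop
      (𝓝 (ζ i)) := by
    intro i
    have h1 := (Complex.continuous_ofReal.tendsto 0).comp (div_sqrt_tendsto (u (.inr i)))
    have h2 := h1.const_add (ζ i)
    simpa [Function.comp_def] using h2
  have hxe : ∀ j, ∀ᶠ N : ℕ in atTop, ‖ξ j + ((u (.inl j) / √(N:ℝ) : ℝ) : ℂ) - 1 / 4‖ < ρ := by
    intro j
    have h1 := ((hx0 j).sub_const (1/4)).norm
    exact h1.eventually_lt_const (by linarith [hξ j])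
  have hze : ∀ i, ∀ᶠ N : ℕ in atTop, ‖ζ i + ((u (.inr i) / √(N:ℝ) : ℝ) : ℂ)‖ < ρ := by
    intro i
    have h1 := (hz0 i).norm
    exact h1.eventually_lt_const (by linarith [(hζ i).1])
  refine Tendsto.mul ?_ (Tendsto.mul ?_ ?_)
  · exact (Complex.continuous_exp.tendsto _).comp
      (ph_taylor hLC hGAM hHH w ξ ζ hcr (fun j => by linarith [hξ j])
        (fun i => by linarith [(hζ i).1]) (fun j => u (.inl j)) (fun i => u (.inr i)))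
  · refine tendsto_finsetProd _ fun i _ => ?_
    unfold fz
    have h1 : Tendsto (fun N : ℕ => Eg N (ζ i + ((u (.inr i) / √(N:ℝ) : ℝ) : ℂ))) atTop (𝓝 0) := by
      rw [tendsto_zero_iff_norm_tendsto_zero]
      refine (eg_tendsto (hζ i).2).congr fun N => ?_
      rw [eg_norm]
      simp
    have h2 : Tendsto (fun N : ℕ => (1 - Eg N (ζ i + ((u (.inr i) / √(N:ℝ) : ℝ) : ℂ))) ^ 2) atTop
        (𝓝 ((1 - 0) ^ 2)) := (h1.const_sub 1).pow 2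
    have h3 : Tendsto (fun N : ℕ => (Real.pi / Complex.I *
        Complex.sin (Real.pi * (ζ i + ((u (.inr i) / √(N:ℝ) : ℝ) : ℂ))) : ℂ)) atTop
        (𝓝 (Real.pi / Complex.I * Complex.sin (Real.pi * ζ i))) := by
      have hc : Continuous fun Z : ℂ => (Real.pi / Complex.I * Complex.sin (Real.pi * Z) : ℂ) := by
        fun_prop
      exact (hc.tendsto _).comp (hz0 i)
    have h4 := h3.div h2 (by norm_num)
    have e0 : (Real.pi / Complex.I * Complex.sin (Real.pi * ζ i) : ℂ) / (1 - 0) ^ 2 =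
        Real.pi / Complex.I * Complex.sin (Real.pi * ζ i) := by
      simp
    rw [e0] at h4
    exact h4
  · refine tendsto_finsetProd _ fun j _ => ?_
    unfold fx
    have h1 : Tendsto (fun N : ℕ => (1 / 4 /
        Complex.sin (Real.pi * (ξ j + ((u (.inl j) / √(N:ℝ) : ℝ) : ℂ))) ^ 2 : ℂ)) atTop
        (𝓝 (1 / 4 / Complex.sin (Real.pi * ξ j) ^ 2)) := by
      refine Tendsto.div tendsto_const_nhds ?_
        (pow_ne_zero 2 (sin_ne_of_re (by linarith [hξ j])))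
      have hc : Continuous fun Z : ℂ => (Complex.sin (Real.pi * Z) ^ 2 : ℂ) := by
        fun_prop
      exact (hc.tendsto _).comp (hx0 j)
    have h2 := (h1.mul (rr_tendsto hC _ _ (hxe j) (hze j.castSucc))).mul
      (rr_tendsto hC _ _ (hxe j) (hze j.succ))
    simpa using h2

end Pool.Agent.Q251.KN
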