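import Pool.Agent.Q99.KN.Stm4

/-! Project KN (helper99), job KN-IQA, part 1: Taylor's formula and algebra of the integrand. -/

set_option autoImplicit false

namespace Pool.Agent.Q251.KN

open Finset Filter Topology MeasureTheory
open Pool.Agent.Q99.KN

/-! ### second order Taylor formula -/

theorem hd_conv {f g : ℝ → ℂ} {a b : ℂ} {t : ℝ} (h : HasDerivAt f a t) (hf : ∀ s, g s = f s)
    (hab : b = a) : HasDerivAt g b t := by
  have : g = f := funext hf
  rw [this, hab]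
  exact h

theorem taylor2 {φ D : ℝ → ℂ} {D' : ℂ} (h1 : ∀ᶠ t : ℝ in 𝓝 (0:ℝ), HasDerivAt φ (D t) t)
    (h0 : D 0 = 0) (h2 : HasDerivAt D D' 0) :
    Tendsto (fun N : ℕ => (N : ℂ) * (φ (1 / √N) - φ 0)) atTop (𝓝 (D' / 2)) := by
  have key : ∀ ε > 0, ∀ᶠ t : ℝ in 𝓝 (0:ℝ), ‖φ t - φ 0 - (t:ℂ)^2 * (D'/2)‖ ≤ ε * t^2 := by
    intro ε hε
    have h3 := h2.isLittleO
    rw [Asymptotics.isLittleO_iff] at h3
    have h4 := h3 hε
    obtain ⟨δ, hδ, hb⟩ := Metric.eventually_nhds_iff.1 (h1.and h4)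
    rw [Metric.eventually_nhds_iff]
    refine ⟨δ, hδ, fun t ht => ?_⟩
    rw [dist_zero_right, Real.norm_eq_abs] at ht
    have hsub : ∀ s ∈ Metric.closedBall (0:ℝ) |t|, dist s 0 < δ := fun s hs => by
      have := Metric.mem_closedBall.1 hs
      linarith
    have hd : ∀ s ∈ Metric.closedBall (0:ℝ) |t|,
        HasDerivWithinAt (fun s : ℝ => φ s - (s:ℂ)^2 * (D'/2)) (D s - s * D')
          (Metric.closedBall (0:ℝ) |t|) s := by
      intro s hs
      have e1 := (hb (hsub s hs)).1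
      have e2 : HasDerivAt (fun s : ℝ => (s:ℂ)^2 * (D'/2)) (s * D') s := by
        have e3 : HasDerivAt (fun s : ℝ => (s:ℂ)) 1 s := Complex.ofRealCLM.hasDerivAt
        have e4 := (e3.pow 2).mul_const (D'/2)
        refine hd_conv e4 (fun s => ?_) ?_
        · simp
        · simp
          ring
      exact (e1.sub e2).hasDerivWithinAt
    have hbd : ∀ s ∈ Metric.closedBall (0:ℝ) |t|, ‖D s - s * D'‖ ≤ ε * |t| := by
      intro s hs
      have e1 := (hb (hsub s hs)).2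
      rw [h0] at e1
      simp only [sub_zero, Complex.real_smul] at e1
      refine e1.trans ?_
      have := Metric.mem_closedBall.1 hs
      rw [dist_zero_right] at this
      gcongr
    have := Convex.norm_image_sub_le_of_norm_hasDerivWithin_le (x := 0) (y := t) hd hbd
      (convex_closedBall _ _) (Metric.mem_closedBall_self (abs_nonneg t))
      (by rw [Metric.mem_closedBall, dist_zero_right, Real.norm_eq_abs])
    simp only [sub_zero, Real.norm_eq_abs] at this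
    calc ‖φ t - φ 0 - (t:ℂ)^2 * (D'/2)‖ = ‖φ t - (t:ℂ)^2 * (D'/2) -
          (φ 0 - ((0:ℝ):ℂ)^2 * (D'/2))‖ := by
          congr 1; push_cast; ring
      _ ≤ ε * |t| * |t| := this
      _ = ε * t ^ 2 := by rw [mul_assoc, abs_mul_abs_self]; ring
  rw [Metric.tendsto_nhds]
  intro ε hε
  have ht : Tendsto (fun N : ℕ => 1 / √(N:ℝ)) atTop (𝓝 0) := by
    have h := (Real.tendsto_sqrt_atTop.comp tendsto_natCast_atTop_atTop)
    exact (tendsto_const_nhds (x := (1:ℝ))).div_atTop h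
  have h5 := ht.eventually (key (ε / 2) (by positivity))
  filter_upwards [h5, eventually_ge_atTop 1] with N hN hN1
  have hN0 : (0:ℝ) < N := by exact_mod_cast hN1
  have hs : √(N:ℝ) ^ 2 = N := Real.sq_sqrt hN0.le
  have hs0 : (0:ℝ) < √(N:ℝ) := Real.sqrt_pos.2 hN0
  rw [dist_eq_norm]
  have e1 : (N : ℂ) * (((1 / √(N:ℝ) : ℝ)) : ℂ) ^ 2 = 1 := by
    have : (N : ℝ) * (1 / √(N:ℝ)) ^ 2 = 1 := by
      rw [div_pow, hs]; field_simp
    exact_mod_cast this
  have e2 : (N : ℂ) * (φ (1 / √N) - φ 0) - D' / 2 =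
      N * (φ (1 / √N) - φ 0 - (((1 / √(N:ℝ) : ℝ)) : ℂ) ^ 2 * (D' / 2)) := by
    rw [mul_sub, mul_sub _ (φ (1 / √N) - φ 0), ← mul_assoc (N:ℂ) ((((1 / √(N:ℝ) : ℝ)) : ℂ) ^ 2), e1]
    ring
  rw [e2, norm_mul]
  have e3 : ‖(N : ℂ)‖ = N := by simp
  rw [e3]
  calc (N:ℝ) * ‖φ (1 / √N) - φ 0 - (((1 / √(N:ℝ) : ℝ)) : ℂ) ^ 2 * (D' / 2)‖
      ≤ N * (ε / 2 * (1 / √(N:ℝ)) ^ 2) := by gcongr
    _ = ε / 2 := by rw [div_pow, hs]; field_simp
    _ < ε := by linarith

/-- the derivatives of the potential along a line -/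
theorem hh_line (hLC : S_LC) (hGAM : S_GAM) (hHH : S_HH) {x z : ℂ} (hx : ‖x - 1/4‖ < 1/16)
    (hz : ‖z‖ < 1/16) (a b : ℝ) :
    (∀ᶠ t : ℝ in 𝓝 (0:ℝ), HasDerivAt (fun t : ℝ => HH (x + t * a) (z + t * b))
      (a * h1 (x + t * a) (z + t * b) + b * h2 (x + t * a) (z + t * b)) t) ∧
    HasDerivAt (fun t : ℝ => a * h1 (x + t * a) (z + t * b) + b * h2 (x + t * a) (z + t * b))
      (a ^ 2 * h11 x z + 2 * a * b * h12 x z + b ^ 2 * h22 x z) 0 := by
  obtain ⟨-, -, -, -, -, hd, -⟩ := hHH hLC hGAM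
  constructor
  · have hc1 : ∀ᶠ t : ℝ in 𝓝 (0:ℝ), ‖x + t * a - 1/4‖ < 1/16 := by
      have hc : ContinuousAt (fun t : ℝ => ‖x + t * a - 1/4‖) 0 := by fun_prop
      exact hc.eventually_lt continuousAt_const (by simpa using hx)
    have hc2 : ∀ᶠ t : ℝ in 𝓝 (0:ℝ), ‖z + t * b‖ < 1/16 := by
      have hc : ContinuousAt (fun t : ℝ => ‖z + t * b‖) 0 := by fun_prop
      exact hc.eventually_lt continuousAt_const (by simpa using hz)
    filter_upwards [hc1, hc2] with t ht1 ht2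
    obtain ⟨e1, -, -⟩ := hd _ _ ht1 ht2 a b
    have e2 : HasDerivAt (fun s : ℝ => ((s - t : ℝ) : ℂ)) 1 t := by
      have e3 : HasDerivAt (fun s : ℝ => (s - t : ℝ)) 1 t := by
        simpa using (hasDerivAt_id t).sub_const t
      have := e3.ofReal_comp
      simpa using this
    have e4 : HasDerivAt (fun s : ℂ => HH (x + t * a + s * a) (z + t * b + s * b))
        (a * h1 (x + t * a) (z + t * b) + b * h2 (x + t * a) (z + t * b)) (((t - t : ℝ)) : ℂ) := by
      simpa using e1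
    have e5 := HasDerivAt.comp t e4 e2
    rw [mul_one] at e5
    refine e5.congr_of_eventuallyEq (Filter.Eventually.of_forall fun s => ?_)
    simp only [Function.comp]
    congr 1 <;> (push_cast; ring)
  · obtain ⟨-, e2, e3⟩ := hd _ _ hx hz a b
    have e4 : HasDerivAt (fun s : ℝ => (s : ℂ)) 1 0 := Complex.ofRealCLM.hasDerivAt
    have e5 := HasDerivAt.comp (0:ℝ) (by simpa using e2 :
      HasDerivAt (fun t : ℂ => h1 (x + t * a) (z + t * b)) (a * h11 x z + b * h12 x z)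
        ((0:ℝ):ℂ)) e4
    have e6 := HasDerivAt.comp (0:ℝ) (by simpa using e3 :
      HasDerivAt (fun t : ℂ => h2 (x + t * a) (z + t * b)) (a * h12 x z + b * h22 x z)
        ((0:ℝ):ℂ)) e4
    have e7 := (e5.const_mul (a:ℂ)).add (e6.const_mul (b:ℂ))
    refine hd_conv e7 (fun s => ?_) ?_
    · simp
    · ring

variable {k : ℕ}

/-- the second derivative of the potential -/
noncomputable def P2 (w : Fin (k + 1) → ℤ) (ξ : Fin k → ℂ) (ζ : Fin (k + 1) → ℂ)
    (a : Fin k → ℝ) (b : Fin (k + 1) → ℝ) : ℂ :=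
  ∑ i, (Complex.I * Real.pi * w i * b i ^ 2 / 2) +
    ∑ j : Fin k, (((a j : ℂ) ^ 2 * h11 (ξ j) (ζ j.castSucc) +
        2 * a j * b j.castSucc * h12 (ξ j) (ζ j.castSucc) +
        (b j.castSucc : ℂ) ^ 2 * h22 (ξ j) (ζ j.castSucc)) +
      ((a j : ℂ) ^ 2 * h11 (ξ j) (ζ j.succ) + 2 * a j * b j.succ * h12 (ξ j) (ζ j.succ) +
        (b j.succ : ℂ) ^ 2 * h22 (ξ j) (ζ j.succ)))

theorem ph_taylor (hLC : S_LC) (hGAM : S_GAM) (hHH : S_HH) (w : Fin (k + 1) → ℤ)
    (ξ : Fin k → ℂ) (ζ : Fin (k + 1) → ℂ) (hcr : Crit w ξ ζ)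
    (hx : ∀ j, ‖ξ j - 1/4‖ < 1/16) (hz : ∀ i, ‖ζ i‖ < 1/16)
    (a : Fin k → ℝ) (b : Fin (k + 1) → ℝ) :
    Tendsto (fun N : ℕ => (N : ℂ) * (Ph w (fun j => ξ j + ((a j / √(N:ℝ) : ℝ) : ℂ))
      (fun i => ζ i + ((b i / √(N:ℝ) : ℝ) : ℂ)) - Ph w ξ ζ)) atTop (𝓝 (P2 w ξ ζ a b / 2)) := by
  set φ : ℝ → ℂ := fun t => Ph w (fun j => ξ j + t * a j) (fun i => ζ i + t * b i) with hφ
  set Dr : ℝ → ℂ := fun t => ∑ i, (Complex.I * Real.pi * w i * (ζ i + t * b i) * b i / 2 +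
      Complex.I * Real.pi * b i) +
    ∑ j : Fin k, ((a j * h1 (ξ j + t * a j) (ζ j.castSucc + t * b j.castSucc) +
      b j.castSucc * h2 (ξ j + t * a j) (ζ j.castSucc + t * b j.castSucc)) +
      (a j * h1 (ξ j + t * a j) (ζ j.succ + t * b j.succ) +
      b j.succ * h2 (ξ j + t * a j) (ζ j.succ + t * b j.succ))) with hDr
  have hlin : ∀ (i : Fin (k+1)) (t : ℝ), HasDerivAt (fun t : ℝ => ζ i + (t:ℂ) * b i) (b i : ℂ) t := by
    intro i t
    have e4 : HasDerivAt (fun s : ℝ => (s : ℂ)) 1 t := Complex.ofRealCLM.hasDerivAt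
    have := (e4.mul_const (b i : ℂ)).const_add (ζ i)
    simpa using this
  have h1' : ∀ᶠ t : ℝ in 𝓝 (0:ℝ), HasDerivAt φ (Dr t) t := by
    have g1 : ∀ j : Fin k, ∀ᶠ t : ℝ in 𝓝 (0:ℝ), HasDerivAt
        (fun t : ℝ => HH (ξ j + t * a j) (ζ j.castSucc + t * b j.castSucc))
        (a j * h1 (ξ j + t * a j) (ζ j.castSucc + t * b j.castSucc) +
          b j.castSucc * h2 (ξ j + t * a j) (ζ j.castSucc + t * b j.castSucc)) t :=
      fun j => (hh_line hLC hGAM hHH (hx j) (hz _) (a j) (b _)).1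
    have g2 : ∀ j : Fin k, ∀ᶠ t : ℝ in 𝓝 (0:ℝ), HasDerivAt
        (fun t : ℝ => HH (ξ j + t * a j) (ζ j.succ + t * b j.succ))
        (a j * h1 (ξ j + t * a j) (ζ j.succ + t * b j.succ) +
          b j.succ * h2 (ξ j + t * a j) (ζ j.succ + t * b j.succ)) t :=
      fun j => (hh_line hLC hGAM hHH (hx j) (hz _) (a j) (b _)).1
    filter_upwards [eventually_all.2 g1, eventually_all.2 g2] with t ht1 ht2
    refine HasDerivAt.add ?_ ?_
    · refine HasDerivAt.fun_sum fun i _ => ?_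
      have e1 := hlin i t
      have e2 := ((e1.pow 2).const_mul (Complex.I * Real.pi * w i / 4)).add
        (e1.const_mul (Complex.I * Real.pi))
      refine hd_conv e2 (fun s => ?_) ?_
      · simp only [Pi.add_apply, Pi.pow_apply]
        ring
      · push_cast
        ring
    · exact HasDerivAt.fun_sum fun j _ => (ht1 j).add (ht2 j)
  have h0 : Dr 0 = 0 := by
    simp only [hDr, Complex.ofReal_zero, zero_mul, add_zero]
    have e1 : ∀ i, (Complex.I * Real.pi * w i * ζ i * b i / 2 + Complex.I * Real.pi * b i) =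
        - (b i * ∑ j : Fin k, ((if j.castSucc = i then h2 (ξ j) (ζ i) else 0) +
      (if j.succ = i then h2 (ξ j) (ζ i) else 0))) := by
      intro i
      have := hcr.z i
      linear_combination (b i : ℂ) * this
    rw [Finset.sum_congr rfl fun i _ => e1 i, Finset.sum_neg_distrib]
    have e2 : ∑ i, (b i : ℂ) * ∑ j : Fin k, ((if j.castSucc = i then h2 (ξ j) (ζ i) else 0) +
        (if j.succ = i then h2 (ξ j) (ζ i) else 0)) =
        ∑ j : Fin k, (b j.castSucc * h2 (ξ j) (ζ j.castSucc) + b j.succ * h2 (ξ j) (ζ j.succ)) := by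
      simp only [Finset.mul_sum]
      rw [Finset.sum_comm]
      refine Finset.sum_congr rfl fun j _ => ?_
      simp only [mul_add, mul_ite, mul_zero, Finset.sum_add_distrib, Finset.sum_ite_eq,
        Finset.mem_univ, if_true]
    rw [e2, neg_add_eq_zero]
    refine Finset.sum_congr rfl fun j _ => ?_
    have := hcr.x j
    linear_combination -(a j : ℂ) * this
  have h2' : HasDerivAt Dr (P2 w ξ ζ a b) 0 := by
    refine HasDerivAt.add ?_ ?_
    · refine HasDerivAt.fun_sum fun i _ => ?_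
      have e1 := hlin i 0
      have e2 := (e1.const_mul (Complex.I * Real.pi * w i * b i / 2)).add_const
        (Complex.I * Real.pi * b i)
      refine hd_conv e2 (fun s => ?_) ?_
      · ring
      · ring
    · exact HasDerivAt.fun_sum fun j _ =>
        (hh_line hLC hGAM hHH (hx j) (hz _) (a j) (b _)).2.add
          (hh_line hLC hGAM hHH (hx j) (hz _) (a j) (b _)).2
  have h3 := taylor2 h1' h0 h2'
  refine h3.congr fun N => ?_
  have e1 : ∀ c : ℝ, (((1 / √(N:ℝ) : ℝ)) : ℂ) * (c : ℂ) = ((c / √(N:ℝ) : ℝ) : ℂ) := by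
    intro c
    push_cast
    ring
  simp only [hφ, e1, Complex.ofReal_zero, zero_mul, add_zero]

end Pool.Agent.Q251.KN
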