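import Pool.Agent.Q251.KN.IQA1

/-! Project KN (helper99), job KN-IQA, part 2: algebra of the integrand. -/

set_option autoImplicit false

namespace Pool.Agent.Q251.KN

open Finset Filter Topology MeasureTheory
open Pool.Agent.Q99.KN

/-! ### quadratic forms -/

/-- a quadratic form -/
def IsQF {ι : Type} [Fintype ι] (f : (ι → ℝ) → ℂ) : Prop :=
  ∃ A : ι → ι → ℂ, ∀ u, f u = ∑ i, ∑ j, A i j * u i * u j

theorem IsQF.add {ι : Type} [Fintype ι] {f g : (ι → ℝ) → ℂ} (hf : IsQF f) (hg : IsQF g) :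
    IsQF fun u => f u + g u := by
  obtain ⟨A, hA⟩ := hf
  obtain ⟨B, hB⟩ := hg
  refine ⟨fun i j => A i j + B i j, fun u => ?_⟩
  simp only
  rw [hA, hB, ← Finset.sum_add_distrib]
  refine Finset.sum_congr rfl fun i _ => ?_
  rw [← Finset.sum_add_distrib]
  refine Finset.sum_congr rfl fun j _ => ?_
  ring

theorem IsQF.zero {ι : Type} [Fintype ι] : IsQF fun _ : ι → ℝ => (0 : ℂ) :=
  ⟨fun _ _ => 0, fun u => by simp⟩

theorem IsQF.sum {ι : Type} [Fintype ι] {α : Type} (s : Finset α) {f : α → (ι → ℝ) → ℂ}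
    (hf : ∀ a, IsQF (f a)) : IsQF fun u => ∑ a ∈ s, f a u := by
  classical
  induction s using Finset.induction_on with
  | empty => simpa using IsQF.zero
  | insert a s ha ih =>
    simp only [Finset.sum_insert ha]
    exact (hf a).add ih

theorem IsQF.mono {ι : Type} [Fintype ι] [DecidableEq ι] (c : ℂ) (p q : ι) :
    IsQF fun u : ι → ℝ => c * u p * u q := by
  refine ⟨fun i j => if i = p then (if j = q then c else 0) else 0, fun u => ?_⟩
  rw [Finset.sum_eq_single p]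
  · rw [Finset.sum_eq_single q]
    · simp
    · intro b _ hb
      simp [hb]
    · intro h
      exact absurd (mem_univ _) h
  · intro b _ hb
    simp [hb]
  · intro h
    exact absurd (mem_univ _) h

theorem IsQF.congr {ι : Type} [Fintype ι] {f g : (ι → ℝ) → ℂ} (hf : IsQF f)
    (h : ∀ u, g u = f u) : IsQF g := by
  obtain ⟨A, hA⟩ := hf
  exact ⟨A, fun u => by rw [h, hA]⟩

variable {k : ℕ}

theorem p2_qf (w : Fin (k + 1) → ℤ) (ξ : Fin k → ℂ) (ζ : Fin (k + 1) → ℂ) :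
    IsQF fun u : Fin k ⊕ Fin (k + 1) → ℝ =>
      P2 w ξ ζ (fun j => u (.inl j)) (fun i => u (.inr i)) / 2 := by
  have h1 : IsQF fun u : Fin k ⊕ Fin (k + 1) → ℝ =>
      ∑ i, (Complex.I * Real.pi * w i / 4) * u (.inr i) * u (.inr i) +
    ∑ j : Fin k, (((h11 (ξ j) (ζ j.castSucc) / 2) * u (.inl j) * u (.inl j) +
        (h12 (ξ j) (ζ j.castSucc)) * u (.inl j) * u (.inr j.castSucc) +
        (h22 (ξ j) (ζ j.castSucc) / 2) * u (.inr j.castSucc) * u (.inr j.castSucc)) +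
      ((h11 (ξ j) (ζ j.succ) / 2) * u (.inl j) * u (.inl j) +
        (h12 (ξ j) (ζ j.succ)) * u (.inl j) * u (.inr j.succ) +
        (h22 (ξ j) (ζ j.succ) / 2) * u (.inr j.succ) * u (.inr j.succ))) := by
    refine (IsQF.sum _ fun i => IsQF.mono _ _ _).add (IsQF.sum _ fun j => ?_)
    exact (((IsQF.mono _ _ _).add (IsQF.mono _ _ _)).add (IsQF.mono _ _ _)).add
      (((IsQF.mono _ _ _).add (IsQF.mono _ _ _)).add (IsQF.mono _ _ _))
  refine h1.congr fun u => ?_
  unfold P2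
  rw [add_div, Finset.sum_div, Finset.sum_div]
  congr 1
  · refine Finset.sum_congr rfl fun i _ => ?_
    ring
  · refine Finset.sum_congr rfl fun j _ => ?_
    ring

/-! ### the integrand -/

/-- the quotient of `WW` and its asymptotics -/
noncomputable def Rr (N : ℕ) (X Z : ℂ) : ℂ :=
  WW N X Z * (2 * N * Complex.sin (Real.pi * X)) * Complex.exp (-(N * HH X Z))

/-- exponentially small -/
noncomputable def Eg (N : ℕ) (Z : ℂ) : ℂ := Complex.exp (Real.pi * Complex.I * (N * Z - N + 1))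

/-- the factor of a twist region -/
noncomputable def fz (N : ℕ) (Z : ℂ) : ℂ :=
  Real.pi / Complex.I * Complex.sin (Real.pi * Z) / (1 - Eg N Z) ^ 2

/-- the factor of a variable between the regions -/
noncomputable def fx (N : ℕ) (X Z Z' : ℂ) : ℂ :=
  1 / 4 / Complex.sin (Real.pi * X) ^ 2 * Rr N X Z * Rr N X Z'

/-- the amplitude -/
noncomputable def Hp (N : ℕ) (X : Fin k → ℂ) (Z : Fin (k + 1) → ℂ) : ℂ :=
  (∏ i, fz N (Z i)) * ∏ j : Fin k, fx N (X j) (Z j.castSucc) (Z j.succ)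

theorem kz_eq (N : ℕ) (hN : 1 ≤ N) (Z : ℂ) : kz N (N * Z) =
    -(Real.pi : ℂ) ^ 2 * ((-1) ^ (N - 1) * Complex.exp (N * (Complex.I * Real.pi * Z))) /
      (1 - Eg N Z) ^ 2 := by
  have hE : Eg N Z = (-1) ^ (N - 1) * Complex.exp (N * (Complex.I * Real.pi * Z)) := by
    unfold Eg
    obtain ⟨m, rfl⟩ : ∃ m, N = m + 1 := ⟨N - 1, by omega⟩
    have e1 : Real.pi * Complex.I * (((m + 1 : ℕ) : ℂ) * Z - ((m + 1 : ℕ) : ℂ) + 1) =
        ((m : ℕ) : ℂ) * (-(Real.pi * Complex.I)) +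
          ((m + 1 : ℕ) : ℂ) * (Complex.I * Real.pi * Z) := by
      push_cast
      ring
    rw [e1, Complex.exp_add, Complex.exp_nat_mul, Complex.exp_neg, Complex.exp_pi_mul_I]
    norm_num
  rw [← hE]
  unfold kz
  set θ : ℂ := Real.pi * (N * Z - N + 1) / 2 with hθ
  have hEE : Eg N Z = Complex.exp (θ * Complex.I) ^ 2 := by
    unfold Eg
    rw [← Complex.exp_nat_mul]
    congr 1
    rw [hθ]
    push_cast
    ring
  have hs : Complex.sin θ ^ 2 = -(1 - Eg N Z) ^ 2 / (4 * Eg N Z) := by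
    rw [hEE, Complex.sin, neg_mul, Complex.exp_neg]
    have h0 : Complex.exp (θ * Complex.I) ≠ 0 := Complex.exp_ne_zero _
    field_simp
    rw [Complex.I_sq]
    ring
  have hE0 : Eg N Z ≠ 0 := by
    unfold Eg
    exact Complex.exp_ne_zero _
  rw [hs]
  by_cases h : (1 - Eg N Z) ^ 2 = 0
  · rw [h]
    simp
  · field_simp
    ring

theorem fac_z (N : ℕ) (hN : 1 ≤ N) (w : ℤ) (Z : ℂ) :
    -(N / (Real.pi * Complex.I)) * (ez N w (N * Z) * Complex.sin (Real.pi * Z) *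
      kz N (N * Z)) = (N * (-1) ^ (N - 1)) * Complex.exp (N * (Complex.I * Real.pi * w * Z ^ 2 / 4 +
        Complex.I * Real.pi * Z)) * fz N Z := by
  rw [kz_eq N hN]
  have hN0 : (N : ℂ) ≠ 0 := by
    have : N ≠ 0 := by omega
    exact_mod_cast this
  have hπ : (Real.pi : ℂ) ≠ 0 := by exact_mod_cast Real.pi_ne_zero
  have e1 : ez N w (N * Z) = Complex.exp (N * (Complex.I * Real.pi * w * Z ^ 2 / 4)) := by
    unfold ez
    congr 1
    field_simp
  rw [e1, mul_add (N:ℂ), Complex.exp_add]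
  unfold fz
  set a := Complex.exp (N * (Complex.I * Real.pi * w * Z ^ 2 / 4))
  set b := Complex.exp (N * (Complex.I * Real.pi * Z))
  set d := (1 - Eg N Z) ^ 2
  set s := Complex.sin (Real.pi * Z)
  set g : ℂ := (-1) ^ (N - 1)
  have hI : Complex.I ≠ 0 := Complex.I_ne_zero
  calc -(N / (Real.pi * Complex.I)) * (a * s * (-(Real.pi:ℂ) ^ 2 * (g * b) / d))
      = (N * (Real.pi:ℂ)^2 / (Real.pi * Complex.I)) * a * s * g * b / d := by ring
    _ = (N * (Real.pi / Complex.I)) * a * s * g * b / d := by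
        congr 5
        field_simp
    _ = _ := by ring

theorem fac_x (N : ℕ) (hN : 1 ≤ N) (X Z Z' : ℂ) (hs : Complex.sin (Real.pi * X) ≠ 0) :
    N * (WW N X Z * WW N X Z') =
      (N : ℂ)⁻¹ * Complex.exp (N * (HH X Z + HH X Z')) * fx N X Z Z' := by
  have hN0 : (N : ℂ) ≠ 0 := by
    have : N ≠ 0 := by omega
    exact_mod_cast this
  unfold fx Rr
  rw [mul_add (N:ℂ), Complex.exp_add, Complex.exp_neg, Complex.exp_neg]
  have h1 := Complex.exp_ne_zero (N * HH X Z)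
  have h2 := Complex.exp_ne_zero (N * HH X Z')
  field_simp
  ring

theorem pg_eq (N : ℕ) (hN : 1 ≤ N) (w : Fin (k + 1) → ℤ) (X : Fin k → ℂ) (Z : Fin (k + 1) → ℂ)
    (hs : ∀ j, Complex.sin (Real.pi * X j) ≠ 0) :
    Pg N w X Z = N * (-1) ^ ((k + 1) * (N - 1)) * Complex.exp (N * Ph w X Z) * Hp N X Z := by
  unfold Pg Ph Hp
  rw [Finset.prod_congr rfl fun i _ => fac_z N hN (w i) (Z i),
    Finset.prod_congr rfl fun j _ => fac_x N hN (X j) (Z j.castSucc) (Z j.succ) (hs j)]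
  simp only [Finset.prod_mul_distrib, Finset.prod_const, Finset.card_univ, Fintype.card_fin]
  rw [← Complex.exp_sum, ← Complex.exp_sum,
    ← Finset.mul_sum, ← Finset.mul_sum, mul_add (N:ℂ), Complex.exp_add]
  have hN0 : (N : ℂ) ≠ 0 := by
    have : N ≠ 0 := by omega
    exact_mod_cast this
  have e1 : ((N : ℂ) * (-1) ^ (N - 1)) ^ (k + 1) * ((N : ℂ)⁻¹) ^ k =
      N * (-1) ^ ((k + 1) * (N - 1)) := by
    rw [mul_pow, ← pow_mul, inv_pow, pow_succ, mul_comm (N - 1) (k + 1)]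
    field_simp
  rw [← e1]
  ring

end Pool.Agent.Q251.KN
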